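import Pool.Agent.KS6_21.HB.General

/-!
# First order asymptotics of `p_c(Q_n, r)` for all thresholds from `(log n)^3` to `n / 2`

For the `r`-neighbour bootstrap process on the hypercube `Q_n` we show `p_c(Q_n, r(n)) ~ r(n) / n` for all
sequences of thresholds with `r(n) ≤ n / 2` and `r(n) (log log n)^2 / (log n)^3 → ∞`.
-/

set_option autoImplicit false
open Filter Topology

namespace Pool.Agent.Results.MP_546510_pr.GeneralThresholds

/-- The initially infected set `A` percolates in the hypercube `Q_n` with threshold `r`: every set `S` of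
vertices that contains `A` and every vertex with at least `r` neighbours in `S` is the whole cube. -/
def Percolates {n : ℕ} (r : ℝ) (A : Finset (Fin n → Bool)) : Prop :=
  ∀ S : Finset (Fin n → Bool), A ⊆ S →
    (∀ v : Fin n → Bool, r ≤ ((S.filter fun u => hammingDist u v = 1).card : ℝ) → v ∈ S) →
    S = Finset.univ

open Classical in
/-- The probability that a `p`-random set percolates. -/
noncomputable def prob (n : ℕ) (r p : ℝ) : ℝ :=
  ∑ A ∈ (Finset.univ : Finset (Finset (Fin n → Bool))).filter (fun A => Percolates r A),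
    p ^ A.card * (1 - p) ^ (2 ^ n - A.card)

/-- The critical probability `p_c(Q_n, r)`. -/
noncomputable def pc (n : ℕ) (r : ℝ) : ℝ := sInf {p : ℝ | 0 ≤ p ∧ p ≤ 1 ∧ 1 / 2 ≤ prob n r p}

theorem pc_eq (n : ℕ) (r : ℝ) : pc n r = KS6_21.HB.pcr n r := by
  have h : ∀ p, prob n r p = H61.Boot.Pr p (H61.Boot.Perc (n := n) r) := by
    intro p
    simp only [prob, H61.Boot.Pr, H61.Boot.wt, Fintype.card_fun, Fintype.card_bool, Fintype.card_fin]
    rfl
  simp only [pc, KS6_21.HB.pcr, h]

theorem general {r : ℕ → ℝ}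
    (h1 : Tendsto (fun n : ℕ => r n * Real.log (Real.log n) ^ 2 / Real.log n ^ 3) atTop atTop)
    (h2 : ∀ᶠ n : ℕ in atTop, r n ≤ n / 2) :
    Tendsto (fun n : ℕ => pc n (r n) / (r n / n)) atTop (𝓝 1) := by
  simp only [pc_eq]
  exact KS6_21.HB.general h1 h2

theorem T0 : Tendsto (fun n : ℕ => (n : ℝ)) atTop atTop := tendsto_natCast_atTop_atTop

theorem T1 : Tendsto (fun n : ℕ => Real.log n) atTop atTop := Real.tendsto_log_atTop.comp T0

theorem T2 : Tendsto (fun n : ℕ => Real.log (Real.log n)) atTop atTop := Real.tendsto_log_atTop.comp T1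

/-- A polynomial threshold is larger than every power of the logarithm. -/
theorem pow_div_log {a : ℝ} (a0 : 0 < a) (b : ℝ) :
    Tendsto (fun n : ℕ => (n : ℝ) ^ a / Real.log n ^ b) atTop atTop := by
  have h1 : (fun x : ℝ => Real.log x ^ b) =o[atTop] fun x => x ^ a := isLittleO_log_rpow_rpow_atTop b a0
  have h2 : Tendsto (fun x : ℝ => Real.log x ^ b / x ^ a) atTop (𝓝 0) := h1.tendsto_div_nhds_zero
  have h3 : Tendsto (fun x : ℝ => Real.log x ^ b / x ^ a) atTop (𝓝[>] 0) := by
    refine tendsto_nhdsWithin_iff.2 ⟨h2, ?_⟩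
    filter_upwards [eventually_gt_atTop 1] with x hx
    have := Real.log_pos hx
    show 0 < Real.log x ^ b / x ^ a
    positivity
  have h4 := (tendsto_inv_nhdsGT_zero.comp h3).comp T0
  refine h4.congr fun n => ?_
  simp [Function.comp_def]

theorem poly {a : ℝ} (a0 : 0 < a) (a1 : a < 1) :
    Tendsto (fun n : ℕ => pc n ((n : ℝ) ^ a) / (n : ℝ) ^ (a - 1)) atTop (𝓝 1) := by
  have h1 : Tendsto (fun n : ℕ => (n : ℝ) ^ a * Real.log (Real.log n) ^ 2 / Real.log n ^ 3) atTop
      atTop := by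
    refine tendsto_atTop_mono' _ ?_ (pow_div_log a0 3)
    filter_upwards [T1.eventually_ge_atTop 1, T2.eventually_ge_atTop 1] with n b1 b2
    rw [show ((3 : ℝ)) = ((3 : ℕ) : ℝ) by norm_num, Real.rpow_natCast]
    have : (0 : ℝ) ≤ (n : ℝ) ^ a := by positivity
    exact div_le_div_of_nonneg_right (le_mul_of_one_le_right this (one_le_pow₀ b2)) (by positivity)
  have h2 : ∀ᶠ n : ℕ in atTop, (n : ℝ) ^ a ≤ n / 2 := by
    have h3 : Tendsto (fun n : ℕ => (n : ℝ) ^ (1 - a)) atTop atTop :=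
      (tendsto_rpow_atTop (by linarith)).comp T0
    filter_upwards [h3.eventually_ge_atTop 2, eventually_ge_atTop 1] with n b1 b2
    have n0 : (0 : ℝ) < n := by exact_mod_cast b2
    have e1 : (n : ℝ) ^ a * (n : ℝ) ^ (1 - a) = n := by
      rw [← Real.rpow_add n0]; simp
    have : 0 < (n : ℝ) ^ a := by positivity
    nlinarith
  refine (general h1 h2).congr' ?_
  filter_upwards [eventually_ge_atTop 1] with n b
  have n0 : (0 : ℝ) < n := by exact_mod_cast b
  rw [Real.rpow_sub_one n0.ne']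

theorem polylog {b : ℝ} (hb : 3 ≤ b) :
    Tendsto (fun n : ℕ => pc n (Real.log n ^ b) / (Real.log n ^ b / n)) atTop (𝓝 1) := by
  refine general ?_ ?_
  · refine tendsto_atTop_mono' _ ?_ T2
    filter_upwards [T1.eventually_ge_atTop 1, T2.eventually_ge_atTop 1] with n b1 b2
    have e1 : Real.log n ^ (3 : ℕ) ≤ Real.log n ^ b := by
      rw [← Real.rpow_natCast]
      exact Real.rpow_le_rpow_of_exponent_le b1 (by exact_mod_cast hb)
    rw [le_div_iff₀ (by positivity)]
    have e2 : Real.log (Real.log n) ≤ Real.log (Real.log n) ^ 2 := by nlinarith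
    calc Real.log (Real.log n) * Real.log n ^ 3 ≤ Real.log (Real.log n) ^ 2 * Real.log n ^ b := by
          gcongr
      _ = _ := mul_comm _ _
  · filter_upwards [(pow_div_log one_pos b).eventually_ge_atTop 2, T1.eventually_ge_atTop 1] with n h1 h2
    have h3 : 0 < Real.log n ^ b := by positivity
    rw [Real.rpow_one, le_div_iff₀ h3] at h1
    linarith

theorem linear {c : ℝ} (c0 : 0 < c) (c1 : c ≤ 1 / 2) :
    Tendsto (fun n : ℕ => pc n (c * n)) atTop (𝓝 c) := by
  have h1 : Tendsto (fun n : ℕ => c * n * Real.log (Real.log n) ^ 2 / Real.log n ^ 3) atTop atTop := by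
    refine tendsto_atTop_mono' _ ?_ ((pow_div_log one_pos 3).const_mul_atTop c0)
    filter_upwards [T1.eventually_ge_atTop 1, T2.eventually_ge_atTop 1] with n b1 b2
    rw [show ((3 : ℝ)) = ((3 : ℕ) : ℝ) by norm_num, Real.rpow_natCast, Real.rpow_one, ← mul_div_assoc]
    have : (0 : ℝ) ≤ c * n := by positivity
    exact div_le_div_of_nonneg_right (le_mul_of_one_le_right this (one_le_pow₀ b2)) (by positivity)
  have h2 : ∀ᶠ n : ℕ in atTop, c * (n : ℝ) ≤ n / 2 := by
    filter_upwards with n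
    have : (0 : ℝ) ≤ n := Nat.cast_nonneg n
    nlinarith
  have h3 := (general h1 h2).mul_const c
  rw [one_mul] at h3
  refine h3.congr' ?_
  filter_upwards [eventually_ge_atTop 1] with n b
  have n0 : (0 : ℝ) < n := by exact_mod_cast b
  field_simp

/-- **Critical probabilities of the hypercube for general thresholds.**
(1) If `r(n) ≤ n / 2` for all large `n` and `r(n) (log log n)^2 / (log n)^3 → ∞`, then
`p_c(Q_n, r(n)) = (1 + o(1)) r(n) / n`.
(2) In particular `p_c(Q_n, n^a) = (1 + o(1)) n^(a-1)` for all `0 < a < 1` (the question: `a ≤ 2 / 3`),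
(3) `p_c(Q_n, (log n)^b) = (1 + o(1)) (log n)^b / n` for all `b ≥ 3`, and
(4) `p_c(Q_n, c n) → c` for all `0 < c ≤ 1 / 2`. -/
theorem result :
    (∀ r : ℕ → ℝ,
      Tendsto (fun n : ℕ => r n * Real.log (Real.log n) ^ 2 / Real.log n ^ 3) atTop atTop →
      (∀ᶠ n : ℕ in atTop, r n ≤ n / 2) →
      Tendsto (fun n : ℕ => pc n (r n) / (r n / n)) atTop (𝓝 1)) ∧
    (∀ a : ℝ, 0 < a → a < 1 →
      Tendsto (fun n : ℕ => pc n ((n : ℝ) ^ a) / (n : ℝ) ^ (a - 1)) atTop (𝓝 1)) ∧
    (∀ b : ℝ, 3 ≤ b →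
      Tendsto (fun n : ℕ => pc n (Real.log n ^ b) / (Real.log n ^ b / n)) atTop (𝓝 1)) ∧
    (∀ c : ℝ, 0 < c → c ≤ 1 / 2 → Tendsto (fun n : ℕ => pc n (c * n)) atTop (𝓝 c)) :=
  ⟨fun _ h1 h2 => general h1 h2, fun _ a0 a1 => poly a0 a1, fun _ hb => polylog hb,
    fun _ c0 c1 => linear c0 c1⟩

end Pool.Agent.Results.MP_546510_pr.GeneralThresholds
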